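import Mathlib

set_option autoImplicit false

namespace Pool.Agent.Y130.NC

/-- an invariant finitely additive probability measure on all subsets exists -/
def HasMn (M : Type) [Group M] : Prop :=
  ∃ m : Set M → ℝ, (∀ A, 0 ≤ m A) ∧ m Set.univ = 1 ∧ (∀ A B, Disjoint A B → m (A ∪ B) = m A + m B) ∧
    ∀ (g : M) A, m ((fun x => g * x) '' A) = m A

theorem mn_quot {M Q : Type} [Group M] [Group Q] (f : M →* Q) (hf : Function.Surjective f) (hM : HasMn M) :
    HasMn Q := by
  obtain ⟨m, h0, h1, hadd, hinv⟩ := hM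
  refine ⟨fun A => m (f ⁻¹' A), fun A => h0 _, ?_, ?_, ?_⟩
  · change m (f ⁻¹' Set.univ) = 1
    rw [Set.preimage_univ, h1]
  · intro A B hAB
    change m (f ⁻¹' (A ∪ B)) = m (f ⁻¹' A) + m (f ⁻¹' B)
    rw [Set.preimage_union]
    exact hadd _ _ (hAB.preimage f)
  · intro g A
    obtain ⟨g, rfl⟩ := hf g
    change m (f ⁻¹' ((fun x => f g * x) '' A)) = m (f ⁻¹' A)
    rw [← hinv g (f ⁻¹' A)]
    congr 1
    ext x
    simp only [Set.mem_preimage, Set.mem_image]
    constructor
    · rintro ⟨y, hy, hy'⟩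
      refine ⟨g⁻¹ * x, ?_, by group⟩
      rw [map_mul, map_inv, ← hy', inv_mul_cancel_left]
      exact hy
    · rintro ⟨y, hy, rfl⟩
      exact ⟨f y, hy, (map_mul f g y).symm⟩

theorem mn_sub {M : Type} [Group M] (K : Subgroup M) (hM : HasMn M) : HasMn K := by
  classical
  obtain ⟨m, h0, h1, hadd, hinv⟩ := hM
  let R : Setoid M := QuotientGroup.rightRel K
  let r : M → M := fun x => (Quotient.mk R x).out
  have hr : ∀ x, x * (r x)⁻¹ ∈ K := by
    intro x
    have h : Quotient.mk R (r x) = Quotient.mk R x := Quotient.out_eq _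
    have h2 : R.r (r x) x := Quotient.exact h
    exact QuotientGroup.rightRel_apply.1 h2
  have hrk : ∀ (k : K) x, r (k * x) = r x := by
    intro k x
    have h : Quotient.mk R ((k : M) * x) = Quotient.mk R x := by
      apply Quotient.sound
      change R.r _ _
      apply QuotientGroup.rightRel_apply.2
      have : x * ((k : M) * x)⁻¹ = (k : M)⁻¹ := by group
      rw [this]
      exact K.inv_mem k.2
    simp only [r]
    rw [h]
  let q : M → K := fun x => ⟨x * (r x)⁻¹, hr x⟩
  have hq : ∀ (k : K) x, q (k * x) = k * q x := by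
    intro k x
    apply Subtype.ext
    change (k : M) * x * (r (k * x))⁻¹ = k * (x * (r x)⁻¹)
    rw [hrk, mul_assoc]
  refine ⟨fun A => m (q ⁻¹' A), fun A => h0 _, ?_, ?_, ?_⟩
  · change m (q ⁻¹' Set.univ) = 1
    rw [Set.preimage_univ, h1]
  · intro A B hAB
    change m (q ⁻¹' (A ∪ B)) = m (q ⁻¹' A) + m (q ⁻¹' B)
    rw [Set.preimage_union]
    exact hadd _ _ (hAB.preimage q)
  · intro g A
    change m (q ⁻¹' ((fun x => g * x) '' A)) = m (q ⁻¹' A)
    rw [← hinv (g : M) (q ⁻¹' A)]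
    congr 1
    ext x
    simp only [Set.mem_preimage, Set.mem_image]
    constructor
    · rintro ⟨y, hy, hy'⟩
      refine ⟨(g : M)⁻¹ * x, ?_, by group⟩
      have h3 : q ((g⁻¹ : K) * x) = g⁻¹ * q x := hq g⁻¹ x
      have h4 : q ((g : M)⁻¹ * x) = g⁻¹ * q x := h3
      rw [h4, ← hy', inv_mul_cancel_left]
      exact hy
    · rintro ⟨y, hy, rfl⟩
      exact ⟨q y, hy, (hq g y).symm⟩

/-- transfer of a mean from a quotient to a quotient of a subgroup -/
theorem mn_transfer {H Q R : Type} [Group H] [Group Q] [Group R] (f : H →* Q) (g : H →* R)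
    (hg : Function.Surjective g) (hfg : f.ker ≤ g.ker) (hQ : HasMn Q) : HasMn R := by
  have h1 : HasMn f.range := mn_sub f.range hQ
  have h2 : Function.Surjective f.rangeRestrict := f.rangeRestrict_surjective
  have h3 : f.rangeRestrict.ker ≤ g.ker := by
    rw [MonoidHom.ker_rangeRestrict]; exact hfg
  let e : f.range →* R := f.rangeRestrict.liftOfSurjective h2 ⟨g, h3⟩
  refine mn_quot e ?_ h1
  intro y
  obtain ⟨x, rfl⟩ := hg y
  refine ⟨f.rangeRestrict x, ?_⟩
  exact MonoidHom.liftOfRightInverse_comp_apply _ _ _ ⟨g, h3⟩ x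

end Pool.Agent.Y130.NC
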